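import Pool.Agent.Q51.EL.Stm
import Pool.Agent.TH194.BL.LskG

/-!
# Project EL, job LSV: the arithmetic large sieve in dimension `k` with variable densities

Variant of `Pool.Agent.TH194.BL.G.lskG`.
-/

set_option autoImplicit false

namespace Pool.Agent.Q51.EL.LSVp

open Finset
open Pool.Agent.Helper112 (ee ls_ee_zero ls_ee_add ls_ee_nat)
open Pool.Agent.TH194.BL Pool.Agent.TH194.BL.LSK Pool.Agent.TH194.BL.G

open Classical in
theorem lowV (η : ℕ → ℝ) : ∀ (k : ℕ) (D : Finset ℕ) (Z : Finset (Fin k → ℕ))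
  (Om : (t : ℕ) → Finset (Fin k → ZMod t)), (∀ t ∈ D, t.Prime) → (∀ t ∈ D, 0 < η t) →
  (∀ t ∈ D, ((Om t).card : ℝ) ≤ (1 - η t) * (t : ℝ) ^ k) →
  (∀ z ∈ Z, ∀ t ∈ D, (fun i => ((z i : ℕ) : ZMod t)) ∈ Om t) → ∀ c : (Fin k → ℕ) → ℂ,
  (∏ t ∈ D, η t) * ‖∑ z ∈ Z, c z‖ ^ 2 ≤
    ∑ b ∈ (Fintype.piFinset (fun _ : Fin k => range (∏ t ∈ D, t))).filter
      (fun b => ∀ t ∈ D, ∃ i, ¬ t ∣ b i),
      ‖∑ z ∈ Z, c z * ee (∑ i, (z i : ℝ) * (b i : ℝ) / ((∏ t ∈ D, t : ℕ) : ℝ))‖ ^ 2 := by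
  intro k D
  induction D using Finset.induction_on with
  | empty =>
    intro Z Om _ _ _ _ c
    rw [Finset.prod_empty, one_mul, Finset.prod_empty]
    have h1 : (fun _ : Fin k => (0 : ℕ)) ∈ (Fintype.piFinset (fun _ : Fin k => range 1)).filter
      (fun b => ∀ t ∈ (∅ : Finset ℕ), ∃ i, ¬ t ∣ b i) := by
      rw [Finset.mem_filter, Fintype.mem_piFinset]
      exact ⟨fun i => by simp, fun t ht => absurd ht (Finset.notMem_empty t)⟩
    refine le_trans (le_of_eq ?_) (Finset.single_le_sum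
      (f := fun b : Fin k → ℕ => ‖∑ z ∈ Z, c z * ee (∑ i, (z i : ℝ) * (b i : ℝ) / ((1 : ℕ) : ℝ))‖ ^ 2)
      (fun b _ => by positivity) h1)
    congr 2
    refine Finset.sum_congr rfl fun z _ => ?_
    have : ∑ i, (z i : ℝ) * ((0 : ℕ) : ℝ) / ((1 : ℕ) : ℝ) = 0 := by simp
    rw [this, ls_ee_zero, mul_one]
  | insert t D htD ih =>
    intro Z Om hp hη hOm hZ c
    have htp : t.Prime := hp t (Finset.mem_insert_self t D)
    have hfact : Fact t.Prime := ⟨htp⟩
    have hη0 : 0 < η t := hη t (Finset.mem_insert_self t D)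
    have hpD : ∀ l ∈ D, l.Prime := fun l hl => hp l (Finset.mem_insert_of_mem hl)
    have hih := ih Z Om hpD (fun l hl => hη l (Finset.mem_insert_of_mem hl))
      (fun l hl => hOm l (Finset.mem_insert_of_mem hl))
      (fun z hz l hl => hZ z hz l (Finset.mem_insert_of_mem hl)) c
    rw [Finset.prod_insert htD, Finset.prod_insert htD]
    set m := ∏ l ∈ D, l with hm
    have hm0 : 0 < m := Finset.prod_pos fun l hl => (hpD l hl).pos
    have ht0 : 0 < t := htp.pos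
    have hmt : Nat.Coprime m t := by
      rw [hm]
      refine Nat.Coprime.prod_left fun l hl => ?_
      rw [Nat.coprime_primes (hpD l hl) htp]
      rintro rfl
      exact htD hl
    set Bs := (Fintype.piFinset (fun _ : Fin k => range m)).filter
      (fun b => ∀ l ∈ D, ∃ i, ¬ l ∣ b i) with hBs
    set As := (Fintype.piFinset (fun _ : Fin k => range t)).filter
      (fun a => ∃ i, ¬ t ∣ a i) with hAs
    set φ : (Fin k → ℕ) × (Fin k → ℕ) → (Fin k → ℕ) :=
      fun p i => (p.1 i * t + p.2 i * m) % (t * m) with hφ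
    -- the terms
    have hterm : ∀ (z : Fin k → ℕ) (p : (Fin k → ℕ) × (Fin k → ℕ)),
        ee (∑ i, (z i : ℝ) * (φ p i : ℝ) / ((t * m : ℕ) : ℝ)) =
        ee (∑ i, (z i : ℝ) * (p.1 i : ℝ) / (m : ℝ)) * ee (∑ i, (z i : ℝ) * (p.2 i : ℝ) / (t : ℝ)) := by
      intro z p
      rw [← ls_ee_add]
      have e1 : ∑ i, (z i : ℝ) * (p.1 i : ℝ) / (m : ℝ) + ∑ i, (z i : ℝ) * (p.2 i : ℝ) / (t : ℝ) =
          ∑ i, (z i : ℝ) * (φ p i : ℝ) / ((t * m : ℕ) : ℝ) +
          ((∑ i, z i * ((p.1 i * t + p.2 i * m) / (t * m)) : ℕ) : ℝ) := by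
        rw [Nat.cast_sum, ← Finset.sum_add_distrib, ← Finset.sum_add_distrib]
        refine Finset.sum_congr rfl fun i _ => ?_
        have e2 : ((p.1 i * t + p.2 i * m : ℕ) : ℝ) =
            ((t * m : ℕ) : ℝ) * (((p.1 i * t + p.2 i * m) / (t * m) : ℕ) : ℝ) + (φ p i : ℝ) := by
          rw [hφ]
          simp only
          exact_mod_cast (Nat.div_add_mod (p.1 i * t + p.2 i * m) (t * m)).symm
        have hmr : (m : ℝ) ≠ 0 := by positivity
        have htr : (t : ℝ) ≠ 0 := by positivity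
        have e3 : (φ p i : ℝ) = (p.1 i : ℝ) * t + (p.2 i : ℝ) * m -
            (t : ℝ) * m * (((p.1 i * t + p.2 i * m) / (t * m) : ℕ) : ℝ) := by
          push_cast at e2
          linarith
        rw [e3]
        push_cast
        field_simp
        ring
      rw [e1, ls_ee_add, ls_ee_nat, mul_one]
    -- injectivity
    have hinj : Set.InjOn φ (↑(Bs ×ˢ As) : Set ((Fin k → ℕ) × (Fin k → ℕ))) := by
      rintro ⟨b, a⟩ hp1 ⟨b', a'⟩ hp2 heq
      rw [Finset.mem_coe, Finset.mem_product, hBs, hAs, Finset.mem_filter, Finset.mem_filter,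
        Fintype.mem_piFinset, Fintype.mem_piFinset] at hp1 hp2
      have h3 : ∀ i, b i * t + a i * m ≡ b' i * t + a' i * m [MOD t * m] := fun i =>
        congrFun heq i
      have h4 : b = b' := by
        funext i
        have h5 : b i * t + a i * m ≡ b' i * t + a' i * m [MOD m] :=
          (h3 i).of_dvd (Dvd.intro_left t rfl)
        have h6 : b i * t ≡ b' i * t [MOD m] := by
          have x1 : b i * t + a i * m ≡ b i * t + 0 [MOD m] :=
            Nat.ModEq.add_left _ ((Nat.modEq_zero_iff_dvd).2 (Dvd.intro_left _ rfl))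
          have x2 : b' i * t + a' i * m ≡ b' i * t + 0 [MOD m] :=
            Nat.ModEq.add_left _ ((Nat.modEq_zero_iff_dvd).2 (Dvd.intro_left _ rfl))
          rw [add_zero] at x1 x2
          exact (x1.symm.trans h5).trans x2
        have h7 : b i ≡ b' i [MOD m] := Nat.ModEq.cancel_right_of_coprime hmt h6
        exact h7.eq_of_lt_of_lt (Finset.mem_range.1 (hp1.1.1 i)) (Finset.mem_range.1 (hp2.1.1 i))
      have h4' : a = a' := by
        funext i
        have h5 : b i * t + a i * m ≡ b' i * t + a' i * m [MOD t] :=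
          (h3 i).of_dvd (Dvd.intro m rfl)
        have h6 : a i * m ≡ a' i * m [MOD t] := by
          have x1 : b i * t + a i * m ≡ 0 + a i * m [MOD t] :=
            Nat.ModEq.add_right _ ((Nat.modEq_zero_iff_dvd).2 (Dvd.intro_left _ rfl))
          have x2 : b' i * t + a' i * m ≡ 0 + a' i * m [MOD t] :=
            Nat.ModEq.add_right _ ((Nat.modEq_zero_iff_dvd).2 (Dvd.intro_left _ rfl))
          rw [zero_add] at x1 x2
          exact (x1.symm.trans h5).trans x2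
        have h7 : a i ≡ a' i [MOD t] := Nat.ModEq.cancel_right_of_coprime hmt.symm h6
        exact h7.eq_of_lt_of_lt (Finset.mem_range.1 (hp1.2.1 i)) (Finset.mem_range.1 (hp2.2.1 i))
      rw [h4, h4']
    -- the image
    have himg : (Bs ×ˢ As).image φ ⊆ (Fintype.piFinset (fun _ : Fin k => range (t * m))).filter
        (fun b => ∀ l ∈ insert t D, ∃ i, ¬ l ∣ b i) := by
      intro x hx
      rw [Finset.mem_image] at hx
      obtain ⟨⟨b, a⟩, hp1, rfl⟩ := hx
      rw [Finset.mem_product, hBs, hAs, Finset.mem_filter, Finset.mem_filter,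
        Fintype.mem_piFinset, Fintype.mem_piFinset] at hp1
      obtain ⟨⟨hb1, hb2⟩, ha1, ha2⟩ := hp1
      rw [Finset.mem_filter, Fintype.mem_piFinset]
      refine ⟨fun i => Finset.mem_range.2 (Nat.mod_lt _ (by positivity)), ?_⟩
      intro l hl
      rw [Finset.mem_insert] at hl
      rcases hl with rfl | hl
      · obtain ⟨i, hi⟩ := ha2
        refine ⟨i, fun h => hi ?_⟩
        rw [hφ] at h
        simp only at h
        rw [Nat.dvd_mod_iff (Dvd.intro m rfl)] at h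
        rw [Nat.dvd_add_right (Dvd.intro_left _ rfl)] at h
        exact (Nat.Coprime.dvd_of_dvd_mul_right hmt.symm h)
      · obtain ⟨i, hi⟩ := hb2 l hl
        refine ⟨i, fun h => hi ?_⟩
        have hlm : l ∣ m := Finset.dvd_prod_of_mem _ hl
        rw [hφ] at h
        simp only at h
        rw [Nat.dvd_mod_iff (hlm.trans (Dvd.intro_left t rfl))] at h
        rw [Nat.dvd_add_left (hlm.trans (Dvd.intro_left _ rfl))] at h
        have : Nat.Coprime l t := Nat.Coprime.coprime_dvd_left hlm hmt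
        exact Nat.Coprime.dvd_of_dvd_mul_right this h
    have hstep : ∑ b ∈ Bs, ∑ a ∈ As, ‖∑ z ∈ Z, c z *
        ee (∑ i, (z i : ℝ) * (φ (b, a) i : ℝ) / ((t * m : ℕ) : ℝ))‖ ^ 2 ≤
        ∑ x ∈ (Fintype.piFinset (fun _ : Fin k => range (t * m))).filter
          (fun b => ∀ l ∈ insert t D, ∃ i, ¬ l ∣ b i),
          ‖∑ z ∈ Z, c z * ee (∑ i, (z i : ℝ) * (x i : ℝ) / ((t * m : ℕ) : ℝ))‖ ^ 2 := by
      rw [← Finset.sum_product' Bs As (fun b a => ‖∑ z ∈ Z, c z *
        ee (∑ i, (z i : ℝ) * (φ (b, a) i : ℝ) / ((t * m : ℕ) : ℝ))‖ ^ 2)]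
      rw [← Finset.sum_image (f := fun x : Fin k → ℕ =>
        ‖∑ z ∈ Z, c z * ee (∑ i, (z i : ℝ) * (x i : ℝ) / ((t * m : ℕ) : ℝ))‖ ^ 2) hinj]
      exact Finset.sum_le_sum_of_subset_of_nonneg himg fun x _ _ => by positivity
    refine le_trans ?_ hstep
    have hone : ∀ b ∈ Bs, η t *
        ‖∑ z ∈ Z, c z * ee (∑ i, (z i : ℝ) * (b i : ℝ) / (m : ℝ))‖ ^ 2 ≤
        ∑ a ∈ As, ‖∑ z ∈ Z, c z *
        ee (∑ i, (z i : ℝ) * (φ (b, a) i : ℝ) / ((t * m : ℕ) : ℝ))‖ ^ 2 := by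
      intro b _
      have h5 := low_prime hη0 k t Z (Om t) (hOm t (Finset.mem_insert_self t D))
        (fun z hz => hZ z hz t (Finset.mem_insert_self t D))
        (fun z => c z * ee (∑ i, (z i : ℝ) * (b i : ℝ) / (m : ℝ)))
      refine h5.trans (le_of_eq (Finset.sum_congr rfl fun a _ => ?_))
      congr 2
      refine Finset.sum_congr rfl fun z _ => ?_
      rw [hterm z (b, a), mul_assoc]
    calc η t * (∏ l ∈ D, η l) * ‖∑ z ∈ Z, c z‖ ^ 2 =
        η t * ((∏ l ∈ D, η l) * ‖∑ z ∈ Z, c z‖ ^ 2) := by ring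
      _ ≤ η t * ∑ b ∈ Bs,
          ‖∑ z ∈ Z, c z * ee (∑ i, (z i : ℝ) * (b i : ℝ) / (m : ℝ))‖ ^ 2 :=
        mul_le_mul_of_nonneg_left hih hη0.le
      _ ≤ _ := by
        rw [Finset.mul_sum]
        exact Finset.sum_le_sum hone

theorem phi_injV {k : ℕ} (P : Finset ℕ) (hP : ∀ t ∈ P, t.Prime) (F : Finset (Finset ℕ))
    (hF : F ⊆ P.powerset) (x y : (_ : Finset ℕ) × (Fin k → ℕ))
    (hx : x ∈ F.sigma (fun D => Bs k D)) (hy : y ∈ F.sigma (fun D => Bs k D))
    (heq : Phi x = Phi y) : x = y := by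
  obtain ⟨D, b⟩ := x
  obtain ⟨D', b'⟩ := y
  rw [Finset.mem_sigma, mem_Bs] at hx hy
  have hDP := Finset.mem_powerset.1 (hF hx.1)
  have hDP' := Finset.mem_powerset.1 (hF hy.1)
  have e1 := D_eq P D hP hDP b hx.2.2
  have e2 := D_eq P D' hP hDP' b' hy.2.2
  have e3 : D = D' := by
    rw [e1, e2, heq]
  subst e3
  have hD : ∀ t ∈ D, t.Prime := fun t ht => hP t (hDP ht)
  have e4 : b = b' := by
    funext i
    rw [b_eq D hD b i, b_eq D hD b' i, heq]
  rw [e4]

theorem collectV {k : ℕ} (Q : ℕ) (P : Finset ℕ) (hP : ∀ t ∈ P, t.Prime) (Fa : Finset (Finset ℕ))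
    (hFa : Fa ⊆ P.powerset) (hQ : ∀ D ∈ Fa, ∏ t ∈ D, t ≤ Q) (F : (Fin k → ℕ × ℕ) → ℝ)
    (hF : ∀ r, 0 ≤ F r) :
    ∑ D ∈ Fa, ∑ b ∈ Bs k D, F (Phi ⟨D, b⟩) ≤
      ∑ r ∈ Fintype.piFinset (fun _ : Fin k => Far Q), F r := by
  classical
  rw [Finset.sum_sigma' Fa (fun D => Bs k D) (fun D b => F (Phi ⟨D, b⟩))]
  have hs : ∑ x ∈ Fa.sigma (fun D => Bs k D), F (Phi x) =
      ∑ r ∈ (Fa.sigma (fun D => Bs k D)).image Phi, F r :=
    (Finset.sum_image (fun x hx y hy h => phi_injV P hP Fa hFa x y hx hy h)).symm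
  refine (le_of_eq hs).trans ?_
  refine Finset.sum_le_sum_of_subset_of_nonneg ?_ (fun r _ _ => hF r)
  intro r hr
  obtain ⟨⟨D, b⟩, hx, rfl⟩ := Finset.mem_image.1 hr
  rw [Finset.mem_sigma, mem_Bs] at hx
  exact phi_mem Q D (fun t ht => hP t ((Finset.mem_powerset.1 (hFa hx.1)) ht)) (hQ D hx.1) b
    (fun i => hx.2.1 i)

end Pool.Agent.Q51.EL.LSVp

namespace Pool.Agent.Q51.EL

open Finset
open Pool.Agent.Helper112 (ee)
open Pool.Agent.TH194.BL Pool.Agent.TH194.BL.LSK Pool.Agent.TH194.BL.G LSVp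

/-- the arithmetic large sieve in dimension `k` with variable densities -/
theorem lsv : S_LSV := by
  classical
  intro k N Q a P Z Om η _ hQN hP hZ hη hOm hZO
  have h1 := add
  -- translation
  set c : (Fin k → ℕ) → ℂ := fun z => if (fun i => z i + a i) ∈ Z then 1 else 0 with hc
  have hsum : ∀ g : (Fin k → ℕ) → ℂ, ∑ z ∈ Fintype.piFinset (fun _ : Fin k => Icc 1 N), c z * g z =
      ∑ z ∈ Z, g (fun i => z i - a i) := by
    intro g
    have e1 : ∑ z ∈ Fintype.piFinset (fun _ : Fin k => Icc 1 N), c z * g z =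
        ∑ z ∈ (Fintype.piFinset (fun _ : Fin k => Icc 1 N)).filter
          (fun z => (fun i => z i + a i) ∈ Z), g z := by
      rw [Finset.sum_filter]
      refine Finset.sum_congr rfl fun z _ => ?_
      simp only [hc]
      split_ifs <;> simp
    rw [e1]
    symm
    refine Finset.sum_bij' (fun z _ => fun i => z i - a i) (fun z _ => fun i => z i + a i)
      ?_ ?_ ?_ ?_ ?_
    · intro z hz
      rw [Finset.mem_filter, Fintype.mem_piFinset]
      have h3 : (fun i => z i - a i + a i) = z := by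
        funext i
        have := Finset.mem_Ioc.1 (hZ z hz i)
        omega
      refine ⟨fun i => ?_, by rw [h3]; exact hz⟩
      have := Finset.mem_Ioc.1 (hZ z hz i)
      rw [Finset.mem_Icc]
      omega
    · intro z hz
      exact (Finset.mem_filter.1 hz).2
    · intro z hz
      funext i
      have := Finset.mem_Ioc.1 (hZ z hz i)
      show z i - a i + a i = z i
      omega
    · intro z hz
      funext i
      show z i + a i - a i = z i
      omega
    · intro z _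
      rfl
  have hc2 : ∑ z ∈ Fintype.piFinset (fun _ : Fin k => Icc 1 N), ‖c z‖ ^ 2 = (Z.card : ℝ) := by
    have e1 := hsum (fun _ => 1)
    have e2 : ∀ z, ((‖c z‖ ^ 2 : ℝ) : ℂ) = c z * 1 := by
      intro z
      simp only [hc]
      split_ifs <;> simp
    have e3 : ((∑ z ∈ Fintype.piFinset (fun _ : Fin k => Icc 1 N), ‖c z‖ ^ 2 : ℝ) : ℂ) =
        ((Z.card : ℝ) : ℂ) := by
      rw [Complex.ofReal_sum, Finset.sum_congr rfl (fun z _ => e2 z), e1]
      simp
    exact_mod_cast e3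
  set F : (Fin k → ℕ × ℕ) → ℝ := fun r =>
    ‖∑ z ∈ Z, (1 : ℂ) * ee (∑ i, (z i : ℝ) * (r i).2 / (r i).1)‖ ^ 2 with hF
  have hFadd : ∀ r, F r = ‖∑ z ∈ Fintype.piFinset (fun _ : Fin k => Icc 1 N),
      c z * ee (∑ i, (z i : ℝ) * (r i).2 / (r i).1)‖ ^ 2 := by
    intro r
    rw [hsum (fun z => ee (∑ i, (z i : ℝ) * (r i).2 / (r i).1))]
    have e1 : ∀ z ∈ Z, (1 : ℂ) * ee (∑ i, (z i : ℝ) * (r i).2 / (r i).1) =
        ee (∑ i, (a i : ℝ) * (r i).2 / (r i).1) *
          ee (∑ i, (((z i - a i : ℕ)) : ℝ) * (r i).2 / (r i).1) := by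
      intro z hz
      rw [one_mul, ← Pool.Agent.Helper112.ls_ee_add, ← Finset.sum_add_distrib]
      congr 1
      refine Finset.sum_congr rfl fun i _ => ?_
      have h3 := Finset.mem_Ioc.1 (hZ z hz i)
      have h4 : (z i : ℝ) = (a i : ℝ) + ((z i - a i : ℕ) : ℝ) := by
        have : z i = a i + (z i - a i) := by omega
        exact_mod_cast this
      rw [h4]
      ring
    simp only [hF]
    rw [Finset.sum_congr rfl e1, ← Finset.mul_sum, norm_mul, Pool.Agent.Helper112.ls_norm_ee, one_mul]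
  set Fa := P.powerset.filter (fun D => ∏ t ∈ D, t ≤ Q) with hFa
  have hFaP : Fa ⊆ P.powerset := Finset.filter_subset _ _
  have hcol := collectV Q P hP Fa hFaP (fun D hD => (Finset.mem_filter.1 hD).2) F
    (fun r => by simp only [hF]; positivity)
  have hlow : ∀ D ∈ Fa, (∏ t ∈ D, η t) * (Z.card : ℝ) ^ 2 ≤
      ∑ b ∈ Bs k D, F (Phi ⟨D, b⟩) := by
    intro D hDm
    have hDP := Finset.mem_powerset.1 (hFaP hDm)
    have h3 := lowV η k D Z Om (fun t ht => hP t (hDP ht)) (fun t ht => hη t (hDP ht))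
      (fun t ht => hOm t (hDP ht))
      (fun z hz t ht => hZO z hz t (hDP ht)) (fun _ => 1)
    have h4 : ‖∑ _z ∈ Z, (1 : ℂ)‖ = (Z.card : ℝ) := by simp
    rw [h4] at h3
    refine h3.trans (le_of_eq ?_)
    refine Finset.sum_congr rfl fun b _ => ?_
    simp only [hF]
    congr 2
    refine Finset.sum_congr rfl fun z _ => ?_
    rw [val_eq D (fun t ht => hP t (hDP ht)) b z]
  have hsumD : (∑ D ∈ Fa, ∏ t ∈ D, η t) * (Z.card : ℝ) ^ 2 ≤
      ∑ r ∈ Fintype.piFinset (fun _ : Fin k => Far Q), F r := by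
    refine le_trans ?_ hcol
    rw [Finset.sum_mul]
    exact Finset.sum_le_sum hlow
  have hadd := h1 k N Q c
  rw [hc2] at hadd
  have h6 : ∑ r ∈ Fintype.piFinset (fun _ : Fin k => Far Q), F r ≤
      (6 * ((N : ℝ) + (Q : ℝ) ^ 2)) ^ k * (Z.card : ℝ) := by
    rw [Finset.sum_congr rfl (fun r _ => hFadd r)]
    exact hadd
  have h7 : (6 * ((N : ℝ) + (Q : ℝ) ^ 2)) ^ k ≤ (12 * (N : ℝ)) ^ k := by
    apply pow_le_pow_left₀ (by positivity)
    have : ((Q : ℝ)) ^ 2 ≤ N := by exact_mod_cast hQN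
    linarith
  rcases Nat.eq_zero_or_pos Z.card with h0 | h0
  · rw [h0]
    simp only [Nat.cast_zero, zero_mul]
    positivity
  · have hZ0 : (0 : ℝ) < Z.card := by exact_mod_cast h0
    have h8 : (∑ D ∈ Fa, ∏ t ∈ D, η t) * (Z.card : ℝ) ^ 2 ≤
        (12 * (N : ℝ)) ^ k * (Z.card : ℝ) :=
      (hsumD.trans h6).trans (mul_le_mul_of_nonneg_right h7 hZ0.le)
    have h9 : ((Z.card : ℝ) * ∑ D ∈ Fa, ∏ t ∈ D, η t) * (Z.card : ℝ) ≤
        (12 * (N : ℝ)) ^ k * (Z.card : ℝ) := by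
      refine le_trans (le_of_eq ?_) h8
      ring
    exact le_of_mul_le_mul_right h9 hZ0

end Pool.Agent.Q51.EL
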