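import Pool.Agent.Q51.EL.Main
import Pool.Agent.Q51.EL.LSV
import Pool.Agent.Q247.EL.SIEVE
import Pool.Agent.Q247.EL.CNT
import Pool.Agent.Q247.EL.M1
import Pool.Agent.Q91.EL.Sums
import Pool.Agent.Q91.EL.Small
import Pool.Agent.Q91.EL.Core
import Pool.Agent.Q91.EL.Cntl
import Pool.Agent.Q154.EL.M2
import Pool.Agent.Q154.EL.CH1
import Pool.Agent.Q239.EL.UN
import Pool.Agent.Q239.EL.CL
import Pool.Agent.Q239.EL.AP
import Pool.Agent.Q239.EL.ROOT
import Pool.Agent.Q239.EL.NV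
import Pool.Agent.Q239.EL.SC
import Pool.Agent.Q239.EL.SD
import Pool.Agent.Q239.EL.DESC
import Pool.Agent.Q52.EL.Solv
import Pool.Agent.Q198.EL.Low
import Pool.Agent.Q198.EL.S2E
import Pool.Agent.Q241.EL.Lift

/-!
# Project EL: the main theorem

`main`: for every `f ∈ ℤ[X]` irreducible over `ℚ` of even degree `≥ 6`, all but a proportion
`O((log X) ^ (-δ))` of the everywhere locally soluble quadratic twists `D y² = f(x)`, `D` squarefree,
`|D| ≤ X`, have empty 2-Selmer set, and so violate the Hasse principle.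
-/

set_option autoImplicit false

namespace Pool.Agent.Q51.EL

open Pool.Agent

theorem t_sieve : S_SIEVE := Q247.EL.sieve lsv
theorem t_m2 : S_M2 := Q154.EL.m2 Q247.EL.m1 Q91.EL.ram
theorem t_core : S_CORE := Q91.EL.core t_sieve Q91.EL.sums Q247.EL.cnt Q91.EL.ram Q247.EL.m1 t_m2
theorem t_root : S_ROOT := Q239.EL.root Q91.EL.ram
theorem t_sc : S_SC := Q239.EL.sc Q239.EL.ap t_root Q239.EL.nv Q91.EL.ram
theorem t_sd : S_SD := Q239.EL.sd Q239.EL.ap t_root Q91.EL.ram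
theorem t_desc : S_DESC := Q239.EL.desc Q239.EL.un Q239.EL.cl t_sc t_sd Q91.EL.ch Q91.EL.ram
theorem t_cntl : S_CNTL := Q91.EL.cntl Q91.EL.sums
theorem t_low : S_LOW := Q198.EL.low Q52.EL.solv Q154.EL.ch1 t_cntl

theorem main : S_MAIN :=
  main_of t_desc Q91.EL.ty t_core Q91.EL.gg t_low Q241.EL.lift Q198.EL.s2e

end Pool.Agent.Q51.EL
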