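import Mathlib

/-! # Project EL: the ratio of the two counting functions -/

set_option autoImplicit false

namespace Pool.Agent.Q51.EL

theorem ratio (S E G : ℝ → ℝ) (n : ℕ) (hn : 2 ≤ n) (K C2 C3 c c4 X0 : ℝ) (hK : 1 ≤ K) (hC2 : 0 ≤ C2)
    (hc : 0 < c) (hc4 : 0 < c4) (hS0 : ∀ X, 0 ≤ S X) (hSE : ∀ X, S X ≤ E X) (hG : Monotone G)
    (hS : ∀ X : ℝ, 3 ≤ X → S X ≤ C2 * (K * X ^ ((1 : ℝ) / n)) ^ n *
      Real.exp (G (K * X ^ ((1 : ℝ) / n)) + C3) * Real.log (K * X ^ ((1 : ℝ) / n)) ^ (-(1 + c)))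
    (hE : ∀ X : ℝ, X0 ≤ X → c4 * X / Real.log X * Real.exp (G X) ≤ E X) :
    ∃ δ C : ℝ, 0 < δ ∧ 0 ≤ C ∧ ∀ X : ℝ, 3 ≤ X → S X ≤ C * Real.log X ^ (-δ) * E X := by
  have hn0 : (0 : ℝ) < n := by exact_mod_cast (by omega : 0 < n)
  set C5 : ℝ := C2 * K ^ n * Real.exp C3 * (n : ℝ) ^ (1 + c) / c4 with hC5
  set X1 : ℝ := max 3 (max X0 (K ^ 2)) with hX1
  set C6 : ℝ := Real.log X1 ^ c with hC6
  have hX13 : 3 ≤ X1 := le_max_left _ _
  have hK0 : 0 < K := by linarith
  have hC50 : 0 ≤ C5 := by positivity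
  have hC60 : 0 ≤ C6 := Real.rpow_nonneg (Real.log_nonneg (by linarith)) _
  have hE0 : ∀ X, 0 ≤ E X := fun X => (hS0 X).trans (hSE X)
  refine ⟨c, C5 + C6, hc, by positivity, ?_⟩
  intro X hX
  have hlog : 0 < Real.log X := Real.log_pos (by linarith)
  have hlogp : 0 < Real.log X ^ (-c) := Real.rpow_pos_of_pos hlog _
  rcases le_total X X1 with h | h
  · have h1 : 1 ≤ C6 * Real.log X ^ (-c) := by
      rw [hC6, Real.rpow_neg hlog.le, ← div_eq_mul_inv, one_le_div (Real.rpow_pos_of_pos hlog _)]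
      exact Real.rpow_le_rpow hlog.le (Real.log_le_log (by linarith) h) hc.le
    calc S X ≤ 1 * E X := by rw [one_mul]; exact hSE X
      _ ≤ (C6 * Real.log X ^ (-c)) * E X := mul_le_mul_of_nonneg_right h1 (hE0 X)
      _ ≤ (C5 + C6) * Real.log X ^ (-c) * E X := by
          apply mul_le_mul_of_nonneg_right _ (hE0 X)
          apply mul_le_mul_of_nonneg_right _ hlogp.le
          linarith
  · have hX0 : X0 ≤ X := (le_max_left _ _).trans ((le_max_right _ _).trans h)
    have hXK : K ^ 2 ≤ X := (le_max_right _ _).trans ((le_max_right _ _).trans h)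
    have hXpos : 0 < X := by linarith
    have hX1' : 1 ≤ X := by linarith
    set Y : ℝ := K * X ^ ((1 : ℝ) / n) with hY
    have hxn : X ^ ((1 : ℝ) / n) ≤ X ^ ((1 : ℝ) / 2) := by
      apply Real.rpow_le_rpow_of_exponent_le hX1'
      apply one_div_le_one_div_of_le (by norm_num)
      exact_mod_cast hn
    have hKs : K ≤ X ^ ((1 : ℝ) / 2) := by
      rw [← Real.sqrt_eq_rpow]
      exact Real.le_sqrt_of_sq_le hXK
    have hYX : Y ≤ X := by
      calc Y ≤ X ^ ((1 : ℝ) / 2) * X ^ ((1 : ℝ) / 2) := by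
            rw [hY]; exact mul_le_mul hKs hxn (by positivity) (by positivity)
        _ = X := by rw [← Real.rpow_add hXpos]; norm_num
    have hYn : Y ^ n = K ^ n * X := by
      rw [hY, mul_pow, ← Real.rpow_natCast (X ^ ((1 : ℝ) / n)) n, ← Real.rpow_mul hXpos.le,
        one_div, inv_mul_cancel₀ hn0.ne', Real.rpow_one]
    have hlogY : Real.log X / n ≤ Real.log Y := by
      rw [hY, Real.log_mul hK0.ne' (by positivity), Real.log_rpow hXpos]
      have := Real.log_nonneg hK
      have h2 : (1 : ℝ) / n * Real.log X = Real.log X / n := by ring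
      linarith
    have hlogYp : Real.log Y ^ (-(1 + c)) ≤ (n : ℝ) ^ (1 + c) * Real.log X ^ (-(1 + c)) := by
      have hpos : 0 < Real.log X / n := by positivity
      calc Real.log Y ^ (-(1 + c)) ≤ (Real.log X / n) ^ (-(1 + c)) :=
            Real.rpow_le_rpow_of_nonpos hpos hlogY (by linarith)
        _ = (n : ℝ) ^ (1 + c) * Real.log X ^ (-(1 + c)) := by
            rw [Real.div_rpow hlog.le hn0.le, Real.rpow_neg hn0.le, div_inv_eq_mul, mul_comm]
    have hGY : G Y ≤ G X := hG hYX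
    have hsplit : Real.log X ^ (-(1 + c)) = Real.log X ^ (-c) * (1 / Real.log X) := by
      rw [show -(1 + c) = -c + (-1) by ring, Real.rpow_add hlog, Real.rpow_neg_one, one_div]
    calc S X ≤ C2 * Y ^ n * Real.exp (G Y + C3) * Real.log Y ^ (-(1 + c)) := hS X hX
      _ ≤ C2 * (K ^ n * X) * Real.exp (G X + C3) *
          ((n : ℝ) ^ (1 + c) * Real.log X ^ (-(1 + c))) := by
          rw [hYn]
          have hlY : 0 < Real.log Y := lt_of_lt_of_le (by positivity) hlogY
          gcongr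
      _ = C5 * Real.log X ^ (-c) * (c4 * X / Real.log X * Real.exp (G X)) := by
          rw [hC5, hsplit, Real.exp_add]
          field_simp
      _ ≤ C5 * Real.log X ^ (-c) * E X := by
          apply mul_le_mul_of_nonneg_left (hE X hX0) (by positivity)
      _ ≤ (C5 + C6) * Real.log X ^ (-c) * E X := by
          apply mul_le_mul_of_nonneg_right _ (hE0 X)
          apply mul_le_mul_of_nonneg_right _ hlogp.le
          linarith

end Pool.Agent.Q51.EL
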