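import Pool.Agent.Q51.EL.Stm
import Pool.Agent.Q51.EL.Ratio

/-! # Project EL: assembly of the main theorem -/

set_option autoImplicit false

namespace Pool.Agent.Q51.EL

open Polynomial NumberField IsDedekindDomain Finset

/-- a squarefree integer is determined by its class modulo squares -/
lemma sqf_eq {D D' : ℤ} (h : Squarefree D) (h' : Squarefree D') (hs : IsSquare ((D * D' : ℤ) : ℚ)) :
    D = D' := by
  have h0 : D ≠ 0 := h.ne_zero
  have h0' : D' ≠ 0 := h'.ne_zero
  have hz : IsSquare (D * D') := by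
    exact_mod_cast Rat.isSquare_intCast_iff.mp (by exact_mod_cast hs)
  have hnn : 0 ≤ D * D' := hz.nonneg
  have hn : D.natAbs = D'.natAbs := by
    have hsq : IsSquare (D.natAbs * D'.natAbs) := by
      obtain ⟨r, hr⟩ := hz
      refine ⟨r.natAbs, ?_⟩
      rw [← Int.natAbs_mul, hr, Int.natAbs_mul]
    have hd := Int.squarefree_natAbs.mpr h
    have hd' := Int.squarefree_natAbs.mpr h'
    have key : ∀ a b : ℕ, Squarefree a → Squarefree b → IsSquare (a * b) → a ∣ b := by
      intro a b ha hb hab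
      by_cases ha0 : a = 0
      · subst ha0; exact absurd ha not_squarefree_zero
      by_cases hb0 : b = 0
      · subst hb0; simp
      rw [← Nat.factorization_le_iff_dvd ha0 hb0]
      intro p
      by_cases hp : p.Prime
      · obtain ⟨c, hc⟩ := hab
        have hc0 : c ≠ 0 := by
          rintro rfl; simp at hc; tauto
        have h1 : (a * b).factorization p = 2 * c.factorization p := by
          rw [hc, Nat.factorization_mul hc0 hc0]; simp; ring
        rw [Nat.factorization_mul ha0 hb0] at h1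
        simp only [Finsupp.coe_add, Pi.add_apply] at h1
        have h2 := (Nat.squarefree_iff_factorization_le_one ha0).mp ha p
        have h3 := (Nat.squarefree_iff_factorization_le_one hb0).mp hb p
        omega
      · rw [Nat.factorization_eq_zero_of_not_prime _ hp]; exact Nat.zero_le _
    exact Nat.dvd_antisymm (key _ _ hd hd' hsq) (key _ _ hd' hd (by rwa [mul_comm]))
  rcases Int.natAbs_eq_natAbs_iff.mp hn with h1 | h1
  · exact h1
  · exfalso
    rw [h1] at hnn
    have : 0 < D' * D' := mul_self_pos.mpr h0'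
    nlinarith


lemma gf_nonneg_term (q : ℕ) : (0 : ℝ) ≤ 1 / q := by positivity

lemma Gf_mono (f : ℤ[X]) {Y Z : ℝ} (h : Y ≤ Z) : Gf f Y ≤ Gf f Z := by
  classical
  unfold Gf
  apply Finset.sum_le_sum_of_subset_of_nonneg
  · intro q hq
    simp only [Finset.mem_filter] at hq ⊢
    refine ⟨?_, hq.2⟩
    have h1 := hq.1
    simp only [Finset.bind_def, Finset.mem_sup, Finset.pure_def, Finset.mem_singleton] at h1 ⊢
    obtain ⟨a, ha, hb⟩ := h1
    refine ⟨a, ?_, hb⟩
    unfold pr at ha ⊢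
    simp only [Finset.mem_filter, Finset.mem_Icc] at ha ⊢
    exact ⟨⟨ha.1.1, ha.1.2.trans (Nat.floor_mono h)⟩, ha.2⟩
  · intro q hq _
    simp only [Finset.mem_filter] at hq
    have h1 := hq.1
    simp only [Finset.bind_def, Finset.mem_sup, Finset.pure_def, Finset.mem_singleton] at h1
    obtain ⟨a, ha, hb⟩ := h1
    rw [hb]
    positivity

/-- the set of the squarefree integers up to `X` is finite -/
lemma fin_sq (X : ℝ) (P : ℤ → Prop) : {D : ℤ | (D.natAbs : ℝ) ≤ X ∧ P D}.Finite := by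
  apply (Set.finite_Icc (-(⌈X⌉₊ : ℤ)) ⌈X⌉₊).subset
  intro D hD
  have h1 : (D.natAbs : ℝ) ≤ (⌈X⌉₊ : ℝ) := hD.1.trans (Nat.le_ceil X)
  have h2 : D.natAbs ≤ ⌈X⌉₊ := by exact_mod_cast h1
  simp only [Set.mem_Icc]
  omega

theorem main_of (hdesc : S_DESC) (hty : S_TY) (hcore : S_CORE) (hgg : S_GG) (hlow : S_LOW)
    (hlift : S_LIFT) (hs2e : S_S2E) : S_MAIN := by
  intro f hf hev h6
  have hE : ∀ D : ℤ, D ≠ 0 → Sel f D → ELS f D := by
    rintro D hD ⟨d, hd, hsq, hR, hp⟩
    exact ⟨hs2e f hf D d hD hsq ℝ hR, fun p _ => hs2e f hf D d hD hsq ℚ_[p] (hp p)⟩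
  refine ⟨hE, fun D => hlift f hf (by omega) D, ?_, hlow f hf⟩
  haveI : Fact (Irreducible (f.map (Int.castRingHom ℚ))) := ⟨hf⟩
  set L := AdjoinRoot (f.map (Int.castRingHom ℚ)) with hL
  have hfd : FiniteDimensional ℚ L := PowerBasis.finite (AdjoinRoot.powerBasis hf.ne_zero)
  have : CharZero L := algebraRat.charZero L
  have : NumberField L := { to_charZero := inferInstance, to_finiteDimensional := hfd }
  set θ : L := AdjoinRoot.root (f.map (Int.castRingHom ℚ)) with hθ
  have hnd : (f.map (Int.castRingHom ℚ)).natDegree = f.natDegree :=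
    natDegree_map_eq_of_injective (Int.castRingHom ℚ).injective_int f
  have hset : Setup f L θ := by
    refine ⟨hf, ?_, ?_⟩
    · have h1 := AdjoinRoot.eval₂_root (f.map (Int.castRingHom ℚ))
      rw [eval₂_map] at h1
      rw [aeval_def, ← h1]
      congr 1
    · rw [(AdjoinRoot.powerBasis hf.ne_zero).finrank, AdjoinRoot.powerBasis_dim, hnd]
  have hint : IsIntegral ℤ ((f.leadingCoeff : L) * θ) := by
    have h1 : IsIntegral ℤ (f.leadingCoeff • θ) := isIntegral_leadingCoeff_smul f θ hset.root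
    rwa [zsmul_eq_mul] at h1
  set t : 𝓞 L := ⟨(f.leadingCoeff : L) * θ, hint⟩ with ht
  obtain ⟨B, C1, hB, hC1, hD⟩ := hdesc f L θ hset hev (by omega) t rfl
  obtain ⟨c, C2, hc, hcore⟩ := hcore L (by rw [hset.deg]; omega) B hB
  obtain ⟨C3, hC3⟩ := hgg f L θ hset
  obtain ⟨c4, X0, hc4, hlow⟩ := hlow f hf
  have hα : ∀ D : ℤ, Squarefree D → Sel f D → ∃ α : 𝓞 L, α ≠ 0 ∧ Good B t α ∧
      IsSquare (((D * f.leadingCoeff : ℤ) : ℚ) * Algebra.norm ℚ (α : L)) ∧
      ∀ σ : L →+* ℂ, ‖σ (α : L)‖ ≤ C1 * (D.natAbs : ℝ) ^ ((1 : ℝ) / f.natDegree) := by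
    rintro D hDs ⟨d, hcop, hsq, -, hp⟩
    have haev : aeval θ d = AdjoinRoot.mk (f.map (Int.castRingHom ℚ)) d := by
      rw [hθ]; exact AdjoinRoot.aeval_eq d
    refine hD D hDs ⟨d, ?_, ?_, hp⟩
    · rw [haev]
      intro h0
      rw [AdjoinRoot.mk_eq_zero] at h0
      have := hcop.isUnit_of_dvd' dvd_rfl h0
      exact hf.not_isUnit this
    · rw [haev]; exact hsq
  choose! A hA0 hAG hAsq hAσ using hα
  have hn0 : (0 : ℝ) < f.natDegree := by exact_mod_cast (by omega : 0 < f.natDegree)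
  set K : ℝ := max C1 3 with hK
  have hK3 : 3 ≤ K := le_max_right _ _
  have hS : ∀ X : ℝ, 3 ≤ X →
      ((({D : ℤ | (D.natAbs : ℝ) ≤ X ∧ Squarefree D ∧ Sel f D}).ncard : ℕ) : ℝ) ≤
      (max C2 0) * (K * X ^ ((1 : ℝ) / f.natDegree)) ^ f.natDegree *
      Real.exp (Gf f (K * X ^ ((1 : ℝ) / f.natDegree)) + C3) *
      Real.log (K * X ^ ((1 : ℝ) / f.natDegree)) ^ (-(1 + c)) := by
    intro X hX
    set Y : ℝ := K * X ^ ((1 : ℝ) / f.natDegree) with hY
    have hX1 : 1 ≤ X ^ ((1 : ℝ) / f.natDegree) :=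
      Real.one_le_rpow (by linarith) (by positivity)
    have hY3 : 3 ≤ Y := by nlinarith
    obtain ⟨hfin, hcard⟩ := hcore {α | Good B t α} (fun l hl hlB => hty L B t l hl hlB) Y hY3
    have hinj : ({D : ℤ | (D.natAbs : ℝ) ≤ X ∧ Squarefree D ∧ Sel f D}).ncard ≤
        ({β ∈ {α | Good B t α} | ∀ σ : L →+* ℂ, ‖σ (β : L)‖ ≤ Y}).ncard := by
      apply Set.ncard_le_ncard_of_injOn A _ _ hfin
      · rintro D ⟨hDX, hDs, hDS⟩
        refine ⟨hAG D hDs hDS, fun σ => (hAσ D hDs hDS σ).trans ?_⟩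
        rw [hY]
        apply mul_le_mul (le_max_left _ _) _ (by positivity) (by positivity)
        exact Real.rpow_le_rpow (by positivity) hDX (by positivity)
      · rintro D ⟨hDX, hDs, hDS⟩ D' ⟨hDX', hDs', hDS'⟩ hAA
        have h1 := hAsq D hDs hDS
        have h2 := hAsq D' hDs' hDS'
        have hAA' : A D = A D' := hAA
        rw [← hAA'] at h2
        have hN0 : Algebra.norm ℚ ((A D : 𝓞 L) : L) ≠ 0 := by
          rw [Algebra.norm_ne_zero_iff]
          exact_mod_cast (hA0 D hDs hDS)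
        have ha0 : ((f.leadingCoeff : ℤ) : ℚ) ≠ 0 := by
          have : f.leadingCoeff ≠ 0 := by
            rw [Ne, leadingCoeff_eq_zero]
            rintro rfl
            simp at h6
          exact_mod_cast this
        apply sqf_eq hDs hDs'
        obtain ⟨u, hu⟩ := h1
        obtain ⟨w, hw⟩ := h2
        refine ⟨u * w / ((f.leadingCoeff : ℤ) * Algebra.norm ℚ ((A D : 𝓞 L) : L)), ?_⟩
        field_simp
        have h3 : ((D * D' : ℤ) : ℚ) * (((f.leadingCoeff : ℤ) : ℚ) ^ 2 *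
          Algebra.norm ℚ ((A D : 𝓞 L) : L) ^ 2) = (u * u) * (w * w) := by
          rw [← hu, ← hw]; push_cast; ring
        linear_combination h3
    have hGN : GN L Y ≤ Gf f Y + C3 := hC3 Y
    have hlY : 0 < Real.log Y := Real.log_pos (by linarith)
    calc ((({D : ℤ | (D.natAbs : ℝ) ≤ X ∧ Squarefree D ∧ Sel f D}).ncard : ℕ) : ℝ)
        ≤ (({β ∈ {α | Good B t α} | ∀ σ : L →+* ℂ, ‖σ (β : L)‖ ≤ Y}).ncard : ℝ) := by
          exact_mod_cast hinj
      _ ≤ C2 * Y ^ Module.finrank ℚ L * Real.exp (GN L Y) * Real.log Y ^ (-(1 + c)) := hcard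
      _ ≤ (max C2 0) * Y ^ f.natDegree * Real.exp (Gf f Y + C3) *
          Real.log Y ^ (-(1 + c)) := by
          rw [hset.deg]
          gcongr
          exact le_max_left _ _
  have hmon : Monotone (Gf f) := fun Y Z h => Gf_mono f h
  obtain ⟨δ, C, hδ, -, hr⟩ := ratio
    (fun X => ((({D : ℤ | (D.natAbs : ℝ) ≤ X ∧ Squarefree D ∧ Sel f D}).ncard : ℕ) : ℝ))
    (fun X => ((({D : ℤ | (D.natAbs : ℝ) ≤ X ∧ Squarefree D ∧ ELS f D}).ncard : ℕ) : ℝ))
    (Gf f) f.natDegree (by omega) K (max C2 0) C3 c c4 X0 (by linarith) (le_max_right _ _) hc hc4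
    (fun X => by positivity) (fun X => by
      have : ({D : ℤ | (D.natAbs : ℝ) ≤ X ∧ Squarefree D ∧ Sel f D}).ncard ≤
          ({D : ℤ | (D.natAbs : ℝ) ≤ X ∧ Squarefree D ∧ ELS f D}).ncard := by
        apply Set.ncard_le_ncard _ (fin_sq X _)
        rintro D ⟨h1, h2, h3⟩
        exact ⟨h1, h2, hE D h2.ne_zero h3⟩
      exact_mod_cast this) hmon hS hlow
  exact ⟨δ, C, hδ, hr⟩

end Pool.Agent.Q51.EL
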