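import Mathlib

/-!
# Project EL (helper51): definitions

`f` is a polynomial with integral coefficients, irreducible over `ℚ`, of even degree `n = 2 g + 2`, and
`C_D : D y² = F(x, w)` is the quadratic twist by the integer `D` of the hyperelliptic curve
`y² = f(x)`.  The 2-coverings of `C_D` are the curves `x - θ w = δ η²`, `δ, η ∈ L = ℚ(θ) = ℚ[X]/(f)`.
-/

set_option autoImplicit false

namespace Pool.Agent.Q51.EL

open Polynomial NumberField IsDedekindDomain Finset

/-- the homogenisation `F(x, w) = ∑ i, a i * x ^ i * w ^ (n - i)` of `f = ∑ i, a i * x ^ i`,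
`n = deg f` -/
noncomputable def hom (f : ℤ[X]) {R : Type*} [CommRing R] (x w : R) : R :=
  ∑ i ∈ range (f.natDegree + 1), (f.coeff i : R) * x ^ i * w ^ (f.natDegree - i)

/-- the curve `C_D : D * y ^ 2 = F(x, w)` has a point over the field `F` -/
def CurvePt (f : ℤ[X]) (D : ℤ) (F : Type) [Field F] : Prop :=
  ∃ x w y : F, (x ≠ 0 ∨ w ≠ 0) ∧ (D : F) * y ^ 2 = hom f x w

/-- the curve `C_D` is everywhere locally soluble -/
def ELS (f : ℤ[X]) (D : ℤ) : Prop :=
  CurvePt f D ℝ ∧ ∀ (p : ℕ) [Fact p.Prime], CurvePt f D ℚ_[p]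

/-- the curve `x - θ w = d(θ) η²` has a point over the field `F`; here `θ` is the image of `X` in the
algebra `F[X]/(f)` and `η = g(θ)` is an element of this algebra -/
def CovPt (f : ℤ[X]) (d : ℚ[X]) (F : Type) [Field F] [CharZero F] : Prop :=
  ∃ (x w : F) (g : F[X]), (x ≠ 0 ∨ w ≠ 0) ∧
    f.map (Int.castRingHom F) ∣ C x - C w * X - d.map (Rat.castHom F) * g ^ 2

/-- some 2-covering `x - θ w = d(θ) η²` of `C_D` (that is, `D * a * N(d(θ))` is a square, `a` the
leading coefficient of `f`, `N` the norm of `ℚ[X]/(f)`) has points over all completions of `ℚ` -/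
def Sel (f : ℤ[X]) (D : ℤ) : Prop :=
  ∃ d : ℚ[X], IsCoprime (f.map (Int.castRingHom ℚ)) d ∧
    IsSquare (((D * f.leadingCoeff : ℤ) : ℚ) *
      Algebra.norm ℚ (AdjoinRoot.mk (f.map (Int.castRingHom ℚ)) d)) ∧
    CovPt f d ℝ ∧ ∀ (p : ℕ) [Fact p.Prime], CovPt f d ℚ_[p]

/-- `L = ℚ(θ)`, `θ` a zero of the irreducible polynomial `f` -/
structure Setup (f : ℤ[X]) (L : Type) [Field L] [NumberField L] (θ : L) : Prop where
  irr : Irreducible (f.map (Int.castRingHom ℚ))
  root : aeval θ f = 0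
  deg : Module.finrank ℚ L = f.natDegree

section L

variable {L : Type} [Field L] [NumberField L]

/-- the prime `v` lies above `l` -/
def Abv (v : HeightOneSpectrum (𝓞 L)) (l : ℕ) : Prop := (l : 𝓞 L) ∈ v.asIdeal

/-- the valuation of `x` at `v` has the parity of `e` (and `x ≠ 0`) -/
def Par (v : HeightOneSpectrum (𝓞 L)) (x : L) (e : ℤ) : Prop :=
  ∃ k : ℤ, v.valuation L x = WithZero.exp (e + 2 * k)

/-- first local condition at the prime `l` for the set `T`: an element of `T` is a unit at `l`, or it is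
contained in exactly one of the primes above `l`, and this has degree one -/
def Ty1 (l : ℕ) (T : Set (𝓞 L)) : Prop :=
  ∀ β ∈ T, (∀ v : HeightOneSpectrum (𝓞 L), Abv v l → β ∉ v.asIdeal) ∨
    ∃ v0 : HeightOneSpectrum (𝓞 L), Abv v0 l ∧ Ideal.absNorm v0.asIdeal = l ∧ β ∈ v0.asIdeal ∧
      ∀ v : HeightOneSpectrum (𝓞 L), Abv v l → v ≠ v0 → β ∉ v.asIdeal

/-- second local condition: the product of two elements of `T` which lie in the same prime `v0` above
`l` is a rational integer prime to `l` times a square modulo all other primes above `l` -/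
def Ty2 (l : ℕ) (T : Set (𝓞 L)) : Prop :=
  ∀ β ∈ T, ∀ β' ∈ T, ∀ v0 : HeightOneSpectrum (𝓞 L), Abv v0 l → β ∈ v0.asIdeal → β' ∈ v0.asIdeal →
    ∃ c : ℤ, ¬ (l : ℤ) ∣ c ∧ ∀ v : HeightOneSpectrum (𝓞 L), Abv v l → v ≠ v0 →
      ∃ g : 𝓞 L, (c : 𝓞 L) * β * β' - g ^ 2 ∈ v.asIdeal

variable (L) in
/-- the number of the primes of norm `l` -/
noncomputable def N1 (l : ℕ) : ℕ :=
  Nat.card {v : HeightOneSpectrum (𝓞 L) // Ideal.absNorm v.asIdeal = l}

variable (L) in
/-- an upper bound for `N1 * 2 ^ (2 - r)`, `r` the number of the primes above `l` -/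
noncomputable def tau (l : ℕ) : ℝ :=
  if N1 L l = 0 then 0 else
    if N1 L l = Module.finrank ℚ L then (Module.finrank ℚ L : ℝ) * 4 / 2 ^ Module.finrank ℚ L else 1

/-- the local conditions satisfied by the element of `L` that belongs to a twist with nonempty Selmer
set, at all primes not dividing `B`; `t` is a multiple of `θ` -/
def Good (B : ℕ) (t α : 𝓞 L) : Prop :=
  ∀ l : ℕ, l.Prime → ¬ l ∣ B →
    (∀ v : HeightOneSpectrum (𝓞 L), Abv v l → α ∉ v.asIdeal) ∨
    ∃ v0 : HeightOneSpectrum (𝓞 L), Abv v0 l ∧ Ideal.absNorm v0.asIdeal = l ∧ α ∈ v0.asIdeal ∧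
      (∀ v : HeightOneSpectrum (𝓞 L), Abv v l → v ≠ v0 → α ∉ v.asIdeal) ∧
      ∃ c r : ℤ, ¬ (l : ℤ) ∣ c ∧ t - (r : 𝓞 L) ∈ v0.asIdeal ∧
        ∀ v : HeightOneSpectrum (𝓞 L), Abv v l → v ≠ v0 →
          ∃ g : 𝓞 L, (c : 𝓞 L) * α - ((r : 𝓞 L) - t) * g ^ 2 ∈ v.asIdeal

end L

/-- the primes up to `Y` -/
noncomputable def pr (Y : ℝ) : Finset ℕ := (Icc 1 ⌊Y⌋₊).filter Nat.Prime

open Classical in
/-- the sum of `1 / q` over the primes `q ≤ Y` modulo which `f` has a zero -/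
noncomputable def Gf (f : ℤ[X]) (Y : ℝ) : ℝ :=
  ∑ q ∈ (pr Y).filter (fun q => ∃ r : ℤ, (q : ℤ) ∣ f.eval r), (1 : ℝ) / q

open Classical in
/-- the sum of `1 / q` over the primes `q ≤ Y` which are the norm of a prime of `L` -/
noncomputable def GN (L : Type) [Field L] [NumberField L] (Y : ℝ) : ℝ :=
  ∑ q ∈ (pr Y).filter (fun q => 1 ≤ N1 L q), (1 : ℝ) / q

end Pool.Agent.Q51.EL
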